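import Pool.Agent.Helper24.KK.GoalsC

/-!
# Project KK: simple conditions (packet KK-LEN)
-/

set_option autoImplicit false

namespace Pool.Agent.Helper62.KK

open Finset MeasureTheory Filter
open Pool.Agent.Helper49.RS Pool.Agent.Helper24.KK

/-- LEN. -/
theorem len : LEN := by
  intro C a b ε τ h hC
  have ha := h.a0
  have hε := h.ε0
  have hc1 := h.c1
  have h1 := ev_pow 2 (1 - a - 12 * ε) 1 (by linarith)
  have h3 := ev_pow 6 0 ε hε
  have h4 := ev_log 32 ε (by norm_num) hε
  filter_upwards [h1, h3, h4, eventually_ge_atTop 1] with M e1 e3 e4 hM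
  have hM0 : (1 : ℝ) ≤ M := by exact_mod_cast hM
  have hMpos : (0 : ℝ) < M := by linarith
  have hexp : 0 ≤ 1 - a - 12 * ε := by linarith
  have hpow1 : (1 : ℝ) ≤ (M : ℝ) ^ (1 - a - 12 * ε) := Real.one_le_rpow hM0 hexp
  have hsl1 : 1 ≤ sl a ε M := by
    unfold sl
    rw [Nat.one_le_ceil_iff]
    linarith
  have hslM : sl a ε M ≤ M := by
    have h5 := ceil_le_two _ hpow1
    rw [Real.rpow_one] at e1
    have h6 : (sl a ε M : ℝ) ≤ (M : ℝ) := by
      unfold sl
      linarith
    exact_mod_cast h6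
  have hR : 2 * M ≤ sR C τ M := by
    unfold sR
    calc 2 * M ≤ C * M := Nat.mul_le_mul_right _ hC
      _ ≤ C * (M + pB τ M) := Nat.mul_le_mul_left _ (Nat.le_add_right _ _)
  have hW1 : 1 ≤ sW ε M := by
    unfold sW
    exact Real.one_le_rpow hM0 hε.le
  refine ⟨hsl1, by omega, ?_, hW1, ?_⟩
  · unfold sΔ avd
    have hN : 0 < sN a ε M := by
      unfold sN
      positivity
    have : 0 ≤ (2 * ((sl a ε M : ℝ) / (sR C τ M : ℕ)) + (sR C τ M : ℕ) *
        ((sl a ε M : ℝ) / (sR C τ M : ℕ)) ^ 2) * sN a ε M := by positivity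
    linarith
  · rw [Real.rpow_zero] at e3
    unfold sW
    linarith

end Pool.Agent.Helper62.KK
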